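import Pool.Agent.Lib_helper27.PropB.Core

/-!
# MP_0fc439_an: `ℓ₁`-sums with infinitely many nonzero summands fail Lindenstrauss' property B
-/

set_option autoImplicit false

open scoped ENNReal

namespace Pool.Agent.Results.MP_0fc439_an.SumsFailB

/-- The norm-attaining bounded operators from `X` to `Y`: there is `x` with `‖x‖ = 1` and
`‖T x‖ = ‖T‖`. -/
def NA (X Y : Type*) [NormedAddCommGroup X] [NormedSpace ℝ X] [NormedAddCommGroup Y]
    [NormedSpace ℝ Y] : Set (X →L[ℝ] Y) :=
  {T | ∃ x : X, ‖x‖ = 1 ∧ ‖T x‖ = ‖T‖}

/-- Lindenstrauss' property B of the real normed space `Y`: for every nonzero real Banach space `X`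
(in the universe `v`) the norm-attaining operators are norm-dense in the space of the bounded
operators from `X` to `Y`. (The space `X = 0` has no vector of norm one, so it is left out.) -/
def PropertyB.{v, u} (Y : Type u) [NormedAddCommGroup Y] [NormedSpace ℝ Y] : Prop :=
  ∀ (X : Type v) [NormedAddCommGroup X] [NormedSpace ℝ X] [CompleteSpace X] [Nontrivial X],
    Dense (NA X Y)

/-- For every family of real normed spaces infinitely many of which are nonzero the
norm-attaining operators from `X` to the `ℓ₁`-sum of the family are not dense. -/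
def IsWitness.{v, u, w} (X : Type v) [NormedAddCommGroup X] [NormedSpace ℝ X] : Prop :=
  ∀ (α : Type w) (F : α → Type u) [∀ n, NormedAddCommGroup (F n)] [∀ n, NormedSpace ℝ (F n)],
    {n | Nontrivial (F n)}.Infinite → ¬ Dense (NA X (lp F 1))

/-- For every family of real normed spaces infinitely many of which are nonzero (in particular
for every sequence of finite-dimensional spaces of dimension at least one), the `ℓ₁`-sum fails
property B; moreover one and the same Banach space `X` is a witness for all such families. -/
theorem result.{v, u, w} :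
    (∀ (α : Type w) (F : α → Type u) [∀ n, NormedAddCommGroup (F n)]
      [∀ n, NormedSpace ℝ (F n)], {n | Nontrivial (F n)}.Infinite →
      ¬ PropertyB.{v} (lp F 1)) ∧
    (∃ (X : Type v) (_ : NormedAddCommGroup X) (_ : NormedSpace ℝ X) (_ : CompleteSpace X)
      (_ : Nontrivial X), IsWitness.{v, u, w} X) := by
  have key : ∃ (X : Type v) (_ : NormedAddCommGroup X) (_ : NormedSpace ℝ X)
      (_ : CompleteSpace X) (_ : Nontrivial X), IsWitness.{v, u, w} X := by
    refine ⟨ULift.{v} Lib_helper27.PropB.X, inferInstance, inferInstance, inferInstance,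
      inferInstance, fun α F _ _ hinf hd => ?_⟩
    refine Lib_helper27.PropB.core F hinf
      (Lib_helper27.PropB.transport (LinearIsometryEquiv.ulift ℝ Lib_helper27.PropB.X).symm
        (hd.mono ?_))
    rintro T ⟨x, hx, hT⟩
    exact ⟨x, hx.le, hT⟩
  refine ⟨?_, key⟩
  obtain ⟨X, i1, i2, i3, i4, hX⟩ := key
  intro α F _ _ hinf hB
  exact hX α F hinf (hB X)

end Pool.Agent.Results.MP_0fc439_an.SumsFailB
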